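import Pool.Agent.MF45.FinJ
import Pool.Agent.MF45.TrF

/-!
# MP_ec31e8_lc, Q1: it is consistent that no filter has a Menger coideal

There is a model of ZFC in which for every filter `F` on `ω` the coideal `F⁺`, as a subspace of
`2 ^ ω`, is not Menger.  This is the negated form of Q1.  No assumption beyond ZFC is used.

* `ZFC E` (file `Pool/Agent/BVM/Fml.lean`): `(M, E)` is a model of ZFC.
* `Omega` (file `Pool/Agent/BVM/Notions.lean`): `w` is `ω`.
* `IsFilter`, `IsCoideal`, `Menger` (file `Pool/Agent/MF45/Defs.lean`): filters on `ω` (they contain
  all cofinite sets), their coideals, and the Menger property of a set of subsets of `ω` with the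
  topology of the Cantor space, relativized to `(M, E)`.

The model is a quotient, by an ultrafilter, of the Boolean-valued universe over the regular open
algebra of a poset.  The poset is a countable support iteration of length `Ordinal.{0}` (seen
from the universe `Type 1` this is an inaccessible cardinal), with a bookkeeping of all filters.

* For a nonmeager P-filter `F` the forcing of the coordinate adds a sequence `c n ∈ 2 ^ n`.  A
  condition (file `Pool/Agent/MF45/Cz.lean`) has a set `A` in `F`, a function `f` and cut points
  `e 0 < e 1 < ...` with finite sets `D j` of strings of length `e (j + 1)`, whose union is dense.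
  It says that `c n = f n` for `n` not in `A`, and that for each `j` there is `t` in `D j` with
  `c n = t ↾ n` for all `n` in `A` with `e j ≤ n < e (j + 1)`.  The fusion lemma
  (`Pool/Agent/MF45/CzG.lean`) uses that `F` is a nonmeager P-filter.
* The iteration is proper and `ω ^ ω`-bounding (`Pool/Agent/MF45/Main.lean`).
* If the coideal of a filter `F'` of the extension is Menger then `F'` is a nonmeager P-filter, and
  so is its restriction to some intermediate model, which generates a nonmeager P-filter in
  all later intermediate models.  For the generic sequence `c` of a coordinate with this filter,
  (a) for every `b` in `2 ^ ω` of the extension, `{n | c n ≠ b ↾ n}` is in `F'`, since `b` is in a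
  closed nowhere dense set of the ground model, and (b) for each function `g` of the ground
  model there is `y` in `F'` such that for all `n` the sequence `c` agrees on `y ∩ [n, g n)` with two
  branches.  By (a) the sets `{A | A ∩ [n, m)` is not covered by two branches`}` for `m < ω` are an
  open cover of the coideal, for each `n`, and (b) contradicts the Menger property for these
  covers, since the iteration is `ω ^ ω`-bounding (`Pool/Agent/MF45/FinJ.lean`).
-/

namespace Pool.Agent.Results.MP_ec31e8_lc.NoMengerCoideal

open Pool.Agent.BVM (ZFC Omega)
open Pool.Agent.MF45 (IsFilter IsCoideal Menger exists_final exists_model_of)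

/-- **Main theorem.**  There is a model `(M, E)` of ZFC, with `w = ω`, in which for every filter `F`
on `ω` the coideal `X = F⁺` is not Menger. -/
theorem result : ∃ (M : Type 2) (E : M → M → Prop), ZFC E ∧ ∃ w, Omega E w ∧
    ∀ F X, IsFilter E w F → IsCoideal E w F X → ¬ Menger E w X := by
  obtain ⟨P, X, hX, h⟩ := exists_final
  exact exists_model_of hX h

end Pool.Agent.Results.MP_ec31e8_lc.NoMengerCoideal
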